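import Mathlib

set_option autoImplicit false
set_option linter.unusedSimpArgs false

namespace Pool.Agent.Results.MP_48b99b_co.EveryNumber

/-- `e(v, S)`: the number of neighbours of `v` lying in `S`. -/
noncomputable def nbrs {V : Type} (G : SimpleGraph V) (v : V) (S : Set V) : ℕ :=
  {u | G.Adj v u ∧ u ∈ S}.ncard

/-- The `k`-coloring `c` is FAT: there is `α ∈ [0,1]` such that, with `β = 1 - (k-1) α`, every vertex
`v` has `α deg v` neighbours in each color class not containing `v` and `β deg v` neighbours in its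
own color class. -/
def IsFAT {V : Type} (G : SimpleGraph V) {k : ℕ} (c : V → Fin k) : Prop :=
  ∃ α : ℝ, 0 ≤ α ∧ α ≤ 1 ∧ ∀ (v : V) (i : Fin k),
    (nbrs G v {u | c u = i} : ℝ) =
      (if c v = i then 1 - ((k : ℝ) - 1) * α else α) * (nbrs G v Set.univ : ℝ)

/-- The partition `s` of the vertex set (given as an equivalence relation) is the partition into the
nonempty color classes of a FAT coloring. -/
def IsFATPartition {V : Type} (G : SimpleGraph V) (s : Setoid V) : Prop :=
  ∃ (k : ℕ) (c : V → Fin k), IsFAT G c ∧ Setoid.ker c = s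

/-- The FAT coloring with partition `s` is irreducible: no FAT coloring is strictly finer. -/
def IsIrreducible {V : Type} (G : SimpleGraph V) (s : Setoid V) : Prop :=
  IsFATPartition G s ∧ ∀ t, IsFATPartition G t → t ≤ s → t = s

/-- Two irreducible FAT colorings are the same when an automorphism of `G` maps the partition of the
first onto the partition of the second. -/
def orbitSetoid {V : Type} (G : SimpleGraph V) : Setoid {s : Setoid V // IsIrreducible G s} where
  r s t := ∃ φ : G ≃g G, ∀ u v, s.1 u v ↔ t.1 (φ u) (φ v)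
  iseqv := by
    refine ⟨fun s => ⟨RelIso.refl _, fun u v => Iff.rfl⟩, ?_, ?_⟩
    · rintro s t ⟨φ, hφ⟩
      refine ⟨φ.symm, fun u v => ?_⟩
      rw [hφ]
      simp
    · rintro s t r ⟨φ, hφ⟩ ⟨ψ, hψ⟩
      refine ⟨φ.trans ψ, fun u v => ?_⟩
      rw [hφ, hψ]
      rfl

/-- The number of irreducible FAT colorings of `G`. -/
noncomputable def numIrreducible {V : Type} (G : SimpleGraph V) : ℕ :=
  Nat.card (Quotient (orbitSetoid G))

/-! ### The graphs -/

/-- vertices of the graph `G m` -/
inductive Vtx (m : ℕ) : Type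
  | a (j : Fin m) : Vtx m
  | b (j : Fin m) (i : Bool) : Vtx m
  | c (j : Fin m) (i t : Bool) : Vtx m
  | h (t : Bool) : Vtx m
  | z (t : Bool) : Vtx m
  deriving DecidableEq

namespace Vtx

/-- the vertex type as a sum -/
def equiv (m : ℕ) : Vtx m ≃ Fin m ⊕ (Fin m × Bool) ⊕ (Fin m × Bool × Bool) ⊕ Bool ⊕ Bool where
  toFun
    | a j => Sum.inl j
    | b j i => Sum.inr (Sum.inl (j, i))
    | c j i t => Sum.inr (Sum.inr (Sum.inl (j, i, t)))
    | h t => Sum.inr (Sum.inr (Sum.inr (Sum.inl t)))
    | z t => Sum.inr (Sum.inr (Sum.inr (Sum.inr t)))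
  invFun
    | Sum.inl j => a j
    | Sum.inr (Sum.inl (j, i)) => b j i
    | Sum.inr (Sum.inr (Sum.inl (j, i, t))) => c j i t
    | Sum.inr (Sum.inr (Sum.inr (Sum.inl t))) => h t
    | Sum.inr (Sum.inr (Sum.inr (Sum.inr t))) => z t
  left_inv := by rintro (_ | _ | _ | _ | _) <;> rfl
  right_inv := by rintro (_ | _ | _ | _ | _) <;> rfl

instance (m : ℕ) : Fintype (Vtx m) := Fintype.ofEquiv _ (equiv m).symm

lemma sum_eq {m : ℕ} (g : Vtx m → ℕ) : ∑ v, g v = (∑ j, g (a j)) + (∑ j, ∑ i, g (b j i)) +
    (∑ j, ∑ i, ∑ t, g (c j i t)) + (∑ t, g (h t)) + ∑ t, g (z t) := by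
  rw [← (equiv m).symm.sum_comp]
  simp only [Fintype.sum_sum_type, Fintype.sum_prod_type]
  simp only [equiv, Equiv.coe_fn_symm_mk]
  ring

end Vtx

open Vtx

/-- edges, oriented from the first to the second class of the bipartition -/
def E (m : ℕ) : Vtx m → Vtx m → Prop
  | a j, c j' _ _ => j = j'
  | b j i, c j' i' _ => j = j' ∧ i = i'
  | h _, c _ _ _ => True
  | h _, z _ => True
  | _, _ => False

/-- the graph -/
def Gr (m : ℕ) : SimpleGraph (Vtx m) where
  Adj x y := E m x y ∨ E m y x
  symm := ⟨fun _ _ h => h.symm⟩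
  loopless := ⟨by rintro (_ | _ | _ | _ | _) <;> simp [E]⟩

instance (m : ℕ) : DecidableRel (E m) := by
  rintro (_ | _ | _ | _ | _) (_ | _ | _ | _ | _) <;> unfold E <;> infer_instance

instance (m : ℕ) : DecidableRel (Gr m).Adj := fun x y =>
  inferInstanceAs (Decidable (E m x y ∨ E m y x))

open Classical in
/-- the indicator of `S` at `x` -/
noncomputable def ind {V : Type} (S : Set V) (x : V) : ℕ := if x ∈ S then 1 else 0

open Classical in
lemma nbrs_eq {m : ℕ} (v : Vtx m) (S : Set (Vtx m)) :
    nbrs (Gr m) v S = ∑ u, if (Gr m).Adj v u then ind S u else 0 := by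
  have h1 : nbrs (Gr m) v S = ∑ u, if (Gr m).Adj v u ∧ u ∈ S then 1 else 0 := by
    unfold nbrs
    rw [Set.ncard_eq_toFinset_card', ← Finset.card_filter]
    congr 1
    ext u
    simp
  rw [h1]
  apply Finset.sum_congr rfl
  intro u _
  unfold ind
  by_cases h2 : (Gr m).Adj v u <;> simp [h2]

lemma nbrs_z {m : ℕ} (t : Bool) (S : Set (Vtx m)) :
    nbrs (Gr m) (z t) S = ind S (h true) + ind S (h false) := by
  rw [nbrs_eq, sum_eq]
  simp [Gr, E, Fintype.sum_bool]

lemma nbrs_b {m : ℕ} (j : Fin m) (i : Bool) (S : Set (Vtx m)) :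
    nbrs (Gr m) (b j i) S = ind S (c j i true) + ind S (c j i false) := by
  rw [nbrs_eq, sum_eq]
  cases i <;> simp [Gr, E, Fintype.sum_bool]

lemma nbrs_a {m : ℕ} (j : Fin m) (S : Set (Vtx m)) :
    nbrs (Gr m) (a j) S = (ind S (c j true true) + ind S (c j true false)) +
      (ind S (c j false true) + ind S (c j false false)) := by
  rw [nbrs_eq, sum_eq]
  simp [Gr, E, Fintype.sum_bool]

lemma nbrs_c {m : ℕ} (j : Fin m) (i t : Bool) (S : Set (Vtx m)) :
    nbrs (Gr m) (c j i t) S = ind S (a j) + ind S (b j i) +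
      (ind S (h true) + ind S (h false)) := by
  rw [nbrs_eq, sum_eq]
  cases i <;> simp [Gr, E, Fintype.sum_bool]

lemma nbrs_h {m : ℕ} (t : Bool) (S : Set (Vtx m)) :
    nbrs (Gr m) (h t) S = (∑ j, ((ind S (c j true true) + ind S (c j true false)) +
      (ind S (c j false true) + ind S (c j false false)))) +
      (ind S (z true) + ind S (z false)) := by
  rw [nbrs_eq, sum_eq]
  simp [Gr, E, Fintype.sum_bool]

@[simp] lemma ind_univ {V : Type} (x : V) : ind Set.univ x = 1 := by simp [ind]

lemma ind_self {V : Type} {k : ℕ} (χ : V → Fin k) (x : V) : ind {u | χ u = χ x} x = 1 := by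
  simp [ind]

lemma ind_eq_one {V : Type} {k : ℕ} {χ : V → Fin k} {x : V} {i : Fin k} (hx : χ x = i) :
    ind {u | χ u = i} x = 1 := by
  simp [ind, hx]

lemma ind_eq_zero {V : Type} {k : ℕ} {χ : V → Fin k} {x : V} {i : Fin k} (hx : χ x ≠ i) :
    ind {u | χ u = i} x = 0 := by
  simp [ind, hx]

/-! ### The FAT colorings -/

/-- the bipartition -/
def side {m : ℕ} : Vtx m → Bool
  | a _ => false
  | b _ _ => false
  | c _ _ _ => true
  | h _ => false
  | z _ => true

/-- the two-colorings in which every vertex has as many neighbours of each color -/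
structure Half {m : ℕ} (f : Vtx m → Bool) : Prop where
  hh : f (h true) ≠ f (h false)
  hz : f (z true) ≠ f (z false)
  hab : ∀ j i, f (a j) ≠ f (b j i)
  hc : ∀ j i, f (c j i true) ≠ f (c j i false)

/-- FAT condition in integer form for `α = β = 1/2` -/
lemma half_of_eq {m : ℕ} (χ : Vtx m → Fin 2)
    (H : ∀ v i, 2 * nbrs (Gr m) v {u | χ u = i} = nbrs (Gr m) v Set.univ) :
    Half (fun x => decide (χ x = 1)) := by
  have key : ∀ x y : Vtx m, ind {u | χ u = χ x} y = 0 → 
      (decide (χ x = 1)) ≠ (decide (χ y = 1)) := by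
    intro x y hxy
    have h1 : χ y ≠ χ x := by
      intro h2
      rw [ind_eq_one h2] at hxy
      exact one_ne_zero hxy
    have h2 : ∀ p q : Fin 2, q ≠ p → (decide (p = 1)) ≠ (decide (q = 1)) := by decide
    exact h2 _ _ h1
  have hc0 : ∀ (j : Fin m) (i : Bool) (r : Fin 2),
      ind {u | χ u = r} (c j i true) + ind {u | χ u = r} (c j i false) = 1 := by
    intro j i r
    have h1 := H (b j i) r
    rw [nbrs_b, nbrs_b, ind_univ, ind_univ] at h1
    omega
  have hh0 : ∀ (r : Fin 2),
      ind {u | χ u = r} (h true) + ind {u | χ u = r} (h false) = 1 := by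
    intro r
    have h1 := H (z true) r
    rw [nbrs_z, nbrs_z, ind_univ, ind_univ] at h1
    omega
  constructor
  · apply key
    have h1 := hh0 (χ (h true))
    rw [ind_self] at h1
    omega
  · apply key
    have h1 := H (h true) (χ (z true))
    rw [nbrs_h, nbrs_h] at h1
    simp only [hc0, ind_univ, ind_self, Finset.sum_const, Finset.card_univ, Fintype.card_fin,
      smul_eq_mul] at h1
    omega
  · intro j i
    apply key
    have h1 := H (c j i true) (χ (a j))
    rw [nbrs_c, nbrs_c, hh0, ind_self] at h1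
    simp only [ind_univ] at h1
    omega
  · intro j i
    apply key
    have h1 := hc0 j i (χ (c j i true))
    rw [ind_self] at h1
    omega

/-- a Boolean coloring as a coloring with colors in `Fin 2` -/
def toFin {V : Type} (f : V → Bool) (x : V) : Fin 2 := if f x then 1 else 0

lemma ker_toFin {V : Type} (f : V → Bool) : Setoid.ker (toFin f) = Setoid.ker f := by
  ext x y
  rw [Setoid.ker_def, Setoid.ker_def]
  unfold toFin
  cases f x <;> cases f y <;> simp

lemma pair_one {V : Type} {f : V → Bool} {x y : V} (hxy : f x ≠ f y) (i : Fin 2) :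
    ind {u | toFin f u = i} x + ind {u | toFin f u = i} y = 1 := by
  have h1 : ∀ p q : Bool, p ≠ q → ∀ i : Fin 2,
      ((if (if p then (1 : Fin 2) else 0) = i then 1 else 0) : ℕ) +
      (if (if q then (1 : Fin 2) else 0) = i then 1 else 0) = 1 := by decide
  have h2 := h1 _ _ hxy i
  unfold ind toFin
  simp only [Set.mem_setOf_eq]
  convert h2

lemma fat_of_half {m : ℕ} {f : Vtx m → Bool} (hf : Half f) :
    IsFATPartition (Gr m) (Setoid.ker f) := by
  refine ⟨2, toFin f, ⟨1 / 2, by norm_num, by norm_num, ?_⟩, ker_toFin f⟩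
  intro v i
  have e : (if toFin f v = i then 1 - (((2 : ℕ) : ℝ) - 1) * (1 / 2) else 1 / 2 : ℝ) = 1 / 2 := by
    split_ifs <;> norm_num
  rw [e]
  have key : 2 * nbrs (Gr m) v {u | toFin f u = i} = nbrs (Gr m) v Set.univ := by
    rcases v with j | ⟨j, i'⟩ | ⟨j, i', t⟩ | t | t
    · rw [nbrs_a, nbrs_a, pair_one (hf.hc j true), pair_one (hf.hc j false)]
      simp only [ind_univ]
    · rw [nbrs_b, nbrs_b, pair_one (hf.hc j i')]
      simp only [ind_univ]
    · rw [nbrs_c, nbrs_c, pair_one (hf.hab j i'), pair_one hf.hh]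
      simp only [ind_univ]
    · rw [nbrs_h, nbrs_h, pair_one hf.hz]
      simp only [pair_one (hf.hc _ true), pair_one (hf.hc _ false), ind_univ, Finset.sum_const,
        Finset.card_univ, Fintype.card_fin, smul_eq_mul]
      ring
    · rw [nbrs_z, nbrs_z, pair_one hf.hh]
      simp only [ind_univ]
  have key' : (2 : ℝ) * (nbrs (Gr m) v {u | toFin f u = i} : ℝ) =
      (nbrs (Gr m) v Set.univ : ℝ) := by exact_mod_cast key
  linarith

lemma ind_side_false {m : ℕ} {x : Vtx m} (hx : side x = false) (i : Fin 2) :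
    ind {u | toFin side u = i} x = if i = 0 then 1 else 0 := by
  unfold ind toFin
  simp only [Set.mem_setOf_eq, hx]
  fin_cases i <;> simp

lemma ind_side_true {m : ℕ} {x : Vtx m} (hx : side x = true) (i : Fin 2) :
    ind {u | toFin side u = i} x = if i = 1 then 1 else 0 := by
  unfold ind toFin
  simp only [Set.mem_setOf_eq, hx]
  fin_cases i <;> simp

lemma fat_side (m : ℕ) : IsFATPartition (Gr m) (Setoid.ker side) := by
  refine ⟨2, toFin side, ⟨1, by norm_num, by norm_num, ?_⟩, ker_toFin side⟩
  intro v i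
  have e : (if toFin side v = i then 1 - (((2 : ℕ) : ℝ) - 1) * 1 else 1 : ℝ) =
      if toFin side v = i then 0 else 1 := by
    split_ifs <;> norm_num
  rw [e]
  rcases v with j | ⟨j, i'⟩ | ⟨j, i', t⟩ | t | t
  · rw [nbrs_a, nbrs_a]
    simp only [ind_univ, ind_side_true (x := c _ _ _) rfl]
    fin_cases i <;> simp [toFin, side]
  · rw [nbrs_b, nbrs_b]
    simp only [ind_univ, ind_side_true (x := c _ _ _) rfl]
    fin_cases i <;> simp [toFin, side]
  · rw [nbrs_c, nbrs_c]
    simp only [ind_univ, ind_side_false (x := a _) rfl, ind_side_false (x := b _ _) rfl,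
      ind_side_false (x := h _) rfl]
    fin_cases i <;> simp [toFin, side]
  · rw [nbrs_h, nbrs_h]
    simp only [ind_univ, ind_side_true (x := c _ _ _) rfl, ind_side_true (x := z _) rfl]
    fin_cases i <;> simp [toFin, side]
  · rw [nbrs_z, nbrs_z]
    simp only [ind_univ, ind_side_false (x := h _) rfl]
    fin_cases i <;> simp [toFin, side]

lemma nbrs_z_univ {m : ℕ} (t : Bool) : nbrs (Gr m) (z t) Set.univ = 2 := by
  rw [nbrs_z]; simp

lemma ind_cases {V : Type} {k : ℕ} (χ : V → Fin k) (x : V) (i : Fin k) :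
    (χ x = i ∧ ind {u | χ u = i} x = 1) ∨ (χ x ≠ i ∧ ind {u | χ u = i} x = 0) := by
  by_cases hx : χ x = i
  · exact Or.inl ⟨hx, ind_eq_one hx⟩
  · exact Or.inr ⟨hx, ind_eq_zero hx⟩

/-- If all neighbours have the same color as the vertex, the coloring is constant. -/
lemma ker_top {m k : ℕ} (χ : Vtx m → Fin k) (H : ∀ x y, (Gr m).Adj x y → χ x = χ y) :
    Setoid.ker χ = ⊤ := by
  have key : ∀ x, χ x = χ (h true) := by
    intro x
    have hz : ∀ t t', χ (z t) = χ (h t') := fun t t' => H _ _ (by simp [Gr, E])
    have hc : ∀ j i t t', χ (c j i t) = χ (h t') := fun j i t t' => H _ _ (by simp [Gr, E])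
    rcases x with j | ⟨j, i'⟩ | ⟨j, i', t⟩ | t | t
    · rw [← hc j true true true]; exact H _ _ (by simp [Gr, E])
    · rw [← hc j i' true true]; exact H _ _ (by simp [Gr, E])
    · exact hc _ _ _ _
    · rw [← hz true true, hz true t]
    · exact hz _ _
  ext x y
  rw [Setoid.ker_def, key x, key y]
  simp

/-- If adjacent vertices have different colors and only two colors are used, the coloring is the
bipartition. -/
lemma ker_side {m k : ℕ} (χ : Vtx m → Fin k) (p q : Fin k) (hpq : p ≠ q)
    (hall : ∀ x, χ x = p ∨ χ x = q) (H : ∀ x y, (Gr m).Adj x y → χ x ≠ χ y)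
    (hp : χ (h true) = p) : Setoid.ker χ = Setoid.ker side := by
  have flip : ∀ x y, (Gr m).Adj x y → χ x = p → χ y = q := by
    intro x y hxy hx
    rcases hall y with h1 | h1
    · exact absurd (hx.trans h1.symm) (H x y hxy)
    · exact h1
  have flip' : ∀ x y, (Gr m).Adj x y → χ x = q → χ y = p := by
    intro x y hxy hx
    rcases hall y with h1 | h1
    · exact h1
    · exact absurd (hx.trans h1.symm) (H x y hxy)
  have hz : ∀ t, χ (z t) = q := fun t => flip (h true) _ (by simp [Gr, E]) hp
  have hh : ∀ t, χ (h t) = p := fun t => flip' (z true) _ (by simp [Gr, E]) (hz true)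
  have hc : ∀ j i t, χ (c j i t) = q := fun j i t => flip (h true) _ (by simp [Gr, E]) hp
  have key : ∀ x, χ x = if side x then q else p := by
    intro x
    rcases x with j | ⟨j, i'⟩ | ⟨j, i', t⟩ | t | t
    · exact flip' (c j true true) _ (by simp [Gr, E]) (hc _ _ _)
    · exact flip' (c j i' true) _ (by simp [Gr, E]) (hc _ _ _)
    · exact hc _ _ _
    · exact hh _
    · exact hz _
  ext x y
  rw [Setoid.ker_def, Setoid.ker_def, key x, key y]
  cases side x <;> cases side y <;> simp [hpq, hpq.symm]

lemma adj_nbrs_pos {m : ℕ} {x y : Vtx m} (hxy : (Gr m).Adj x y) {S : Set (Vtx m)} (hy : y ∈ S) :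
    0 < nbrs (Gr m) x S := by
  unfold nbrs
  rw [Set.ncard_pos (Set.toFinite _)]
  exact ⟨y, hxy, hy⟩

/-- **Classification of the FAT colorings of `G m`, `m ≥ 1`.** -/
theorem classification {m : ℕ} (hm : 1 ≤ m) (s : Setoid (Vtx m)) (hs : IsFATPartition (Gr m) s) :
    s = ⊤ ∨ s = Setoid.ker side ∨ ∃ f : Vtx m → Bool, Half f ∧ s = Setoid.ker f := by
  obtain ⟨k, χ, ⟨α, hα0, hα1, H⟩, rfl⟩ := hs
  -- the equation at `z true`
  have Hz : ∀ i : Fin k, ((ind {u | χ u = i} (h true) : ℝ) + (ind {u | χ u = i} (h false) : ℝ)) =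
      (if χ (z true) = i then 1 - ((k : ℝ) - 1) * α else α) * 2 := by
    intro i
    have h1 := H (z true) i
    rw [nbrs_z_univ, nbrs_z] at h1
    push_cast at h1
    exact h1
  by_cases hh : χ (h true) = χ (h false)
  · -- both hub vertices have the same color
    have e1 := Hz (χ (h true))
    rw [ind_self, ind_eq_one hh.symm] at e1
    by_cases hz : χ (z true) = χ (h true)
    · rw [if_pos hz] at e1
      left
      have e2 : ((k : ℝ) - 1) * α = 0 := by push_cast at e1; linarith
      apply ker_top
      intro x y hxy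
      by_contra hne
      rcases mul_eq_zero.1 e2 with h1 | h1
      · have h2 : k = 1 := by
          have : (k : ℝ) = 1 := by linarith
          exact_mod_cast this
        subst h2
        exact hne (Subsingleton.elim _ _)
      · have h2 := H x (χ y)
        rw [if_neg hne, h1, zero_mul] at h2
        have h3 := adj_nbrs_pos hxy (S := {u | χ u = χ y}) rfl
        have h4 : nbrs (Gr m) x {u | χ u = χ y} = 0 := by exact_mod_cast h2
        omega
    · rw [if_neg hz] at e1
      have e2 : α = 1 := by push_cast at e1; linarith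
      right; left
      have hall : ∀ x, χ x = χ (h true) ∨ χ x = χ (z true) := by
        intro x
        by_contra hcon
        push Not at hcon
        have h1 := Hz (χ x)
        rw [if_neg (Ne.symm hcon.2), ind_eq_zero (Ne.symm hcon.1),
          ind_eq_zero (fun h => hcon.1 (by rw [← h, hh])), e2] at h1
        norm_num at h1
      refine ker_side χ (χ (h true)) (χ (z true)) (Ne.symm hz) hall ?_ rfl
      intro x y hxy hxy'
      have h1 := H x (χ x)
      rw [if_pos rfl, e2] at h1
      have h3 := adj_nbrs_pos hxy (S := {u | χ u = χ x}) hxy'.symm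
      have h4 := adj_nbrs_pos hxy (S := Set.univ) (Set.mem_univ _)
      have h5 : (2 : ℝ) ≤ k := by
        have h6 : 2 ≤ k := by
          by_contra hk
          have h7 : k = 0 ∨ k = 1 := by omega
          rcases h7 with rfl | rfl
          · exact (χ x).elim0
          · exact hz (Subsingleton.elim _ _)
        exact_mod_cast h6
      have h3' : (0 : ℝ) < (nbrs (Gr m) x {u | χ u = χ x} : ℝ) := by exact_mod_cast h3
      have h4' : (0 : ℝ) < (nbrs (Gr m) x Set.univ : ℝ) := by exact_mod_cast h4
      rw [h1] at h3'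
      have h8 : (1 - ((k : ℝ) - 1) * 1) ≤ 0 := by linarith
      nlinarith
  · -- the hub vertices have different colors
    have e1 := Hz (χ (h true))
    have e2 := Hz (χ (h false))
    rw [ind_self, ind_eq_zero (Ne.symm hh)] at e1
    rw [ind_self, ind_eq_zero hh] at e2
    have hα : α = 1 / 2 := by
      by_cases h1 : χ (z true) = χ (h true)
      · rw [if_neg (by rw [h1]; exact hh)] at e2
        push_cast at e2; linarith
      · rw [if_neg h1] at e1
        push_cast at e1; linarith
    by_cases hz : χ (z true) = χ (h true) ∨ χ (z true) = χ (h false)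
    · -- `β = 1/2`, `k = 2`
      have hk : (k : ℝ) = 2 := by
        rcases hz with h1 | h1
        · rw [if_pos h1, hα] at e1
          push_cast at e1; linarith
        · rw [if_pos h1, hα] at e2
          push_cast at e2; linarith
      have hk' : k = 2 := by exact_mod_cast hk
      subst hk'
      right; right
      refine ⟨fun x => decide (χ x = 1), half_of_eq χ ?_, ?_⟩
      · intro v i
        have h1 := H v i
        have h2 : (if χ v = i then 1 - (((2 : ℕ) : ℝ) - 1) * α else α) = 1 / 2 := by
          rw [hα]; split_ifs <;> norm_num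
        rw [h2] at h1
        have h3 : (2 : ℝ) * (nbrs (Gr m) v {u | χ u = i} : ℝ) = (nbrs (Gr m) v Set.univ : ℝ) := by
          linarith
        exact_mod_cast h3
      · ext x y
        rw [Setoid.ker_def, Setoid.ker_def]
        have h2 : ∀ p q : Fin 2, p = q ↔ (decide (p = 1)) = (decide (q = 1)) := by decide
        exact h2 _ _
    · -- `β = 0`, `k = 3`
      exfalso
      push Not at hz
      have e3 := Hz (χ (z true))
      rw [if_pos rfl, ind_eq_zero (Ne.symm hz.1), ind_eq_zero (Ne.symm hz.2), hα] at e3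
      have hk : (k : ℝ) = 3 := by push_cast at e3; linarith
      have hk' : k = 3 := by exact_mod_cast hk
      subst hk'
      have hβ : (1 - (((3 : ℕ) : ℝ) - 1) * α) = 0 := by rw [hα]; norm_num
      have hprop : ∀ x y, (Gr m).Adj x y → χ x ≠ χ y := by
        intro x y hxy hxy'
        have h1 := H x (χ x)
        rw [if_pos rfl, hβ, zero_mul] at h1
        have h3 := adj_nbrs_pos hxy (S := {u | χ u = χ x}) hxy'.symm
        have h4 : nbrs (Gr m) x {u | χ u = χ x} = 0 := by exact_mod_cast h1
        omega
      let j : Fin m := ⟨0, hm⟩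
      have c1 : χ (c j true true) ≠ χ (h true) := hprop _ _ (by simp [Gr, E])
      have c2 : χ (c j true true) ≠ χ (h false) := hprop _ _ (by simp [Gr, E])
      have c3 : χ (c j true false) ≠ χ (h true) := hprop _ _ (by simp [Gr, E])
      have c4 : χ (c j true false) ≠ χ (h false) := hprop _ _ (by simp [Gr, E])
      have c5 : χ (c j true true) = χ (c j true false) := by
        have h5 : ∀ p q r r' : Fin 3, p ≠ q → r ≠ p → r ≠ q → r' ≠ p → r' ≠ q → r = r' := by decide
        exact h5 _ _ _ _ hh c1 c2 c3 c4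
      have h6 := H (b j true) (χ (c j true true))
      have h7 : χ (b j true) ≠ χ (c j true true) := hprop _ _ (by simp [Gr, E])
      rw [if_neg h7, nbrs_b, nbrs_b, ind_self, ind_eq_one c5.symm, hα] at h6
      simp at h6

/-! ### The irreducible FAT colorings -/

lemma ker_eq_of_le {V : Type} {f g : V → Bool} (hle : Setoid.ker g ≤ Setoid.ker f)
    (hf : ∀ x, ∃ y, f y ≠ f x) : Setoid.ker g = Setoid.ker f := by
  apply le_antisymm hle
  intro x y hxy
  rw [Setoid.ker_def] at hxy ⊢
  by_contra hne
  obtain ⟨w, hw⟩ := hf x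
  have h1 : g w = g x ∨ g w = g y := by
    revert hne
    cases g w <;> cases g x <;> cases g y <;> simp
  rcases h1 with h1 | h1
  · exact hw (hle h1)
  · exact hw ((hle h1).trans hxy.symm)

lemma Half.nonconst {m : ℕ} {f : Vtx m → Bool} (hf : Half f) (x : Vtx m) : ∃ y, f y ≠ f x := by
  by_cases h1 : f (h true) = f x
  · exact ⟨h false, fun h2 => hf.hh (h1.trans h2.symm)⟩
  · exact ⟨h true, h1⟩

lemma side_nonconst {m : ℕ} (x : Vtx m) : ∃ y : Vtx m, side y ≠ side x := by
  by_cases h1 : side x = false
  · exact ⟨z true, by rw [h1]; simp [side]⟩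
  · refine ⟨h true, ?_⟩
    simp only [side]
    exact fun h2 => h1 h2.symm

lemma ker_ne_top {V : Type} [Nonempty V] {f : V → Bool} (hf : ∀ x, ∃ y, f y ≠ f x) :
    Setoid.ker f ≠ ⊤ := by
  intro h1
  obtain ⟨y, hy⟩ := hf (Classical.arbitrary V)
  have h2 : (⊤ : Setoid V) y (Classical.arbitrary V) := trivial
  rw [← h1] at h2
  exact hy h2

instance (m : ℕ) : Nonempty (Vtx m) := ⟨h true⟩

lemma irreducible_iff {m : ℕ} (hm : 1 ≤ m) (s : Setoid (Vtx m)) :
    IsIrreducible (Gr m) s ↔
      s = Setoid.ker side ∨ ∃ f : Vtx m → Bool, Half f ∧ s = Setoid.ker f := by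
  constructor
  · rintro ⟨h1, h2⟩
    rcases classification hm s h1 with rfl | h3 | h3
    · exact absurd (h2 _ (fat_side m) le_top) (ker_ne_top side_nonconst)
    · exact Or.inl h3
    · exact Or.inr h3
  · intro h1
    have h2 : ∃ f : Vtx m → Bool, (∀ x, ∃ y, f y ≠ f x) ∧ s = Setoid.ker f := by
      rcases h1 with h3 | ⟨f, hf, h3⟩
      · exact ⟨side, side_nonconst, h3⟩
      · exact ⟨f, hf.nonconst, h3⟩
    obtain ⟨f, hf, hs⟩ := h2
    refine ⟨?_, ?_⟩
    · rcases h1 with h3 | ⟨g, hg, h3⟩
      · rw [h3]; exact fat_side m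
      · rw [h3]; exact fat_of_half hg
    · intro t ht hts
      have key : ∀ g : Vtx m → Bool, t = Setoid.ker g → t = s := by
        intro g hg
        rw [hg, hs]
        rw [hg, hs] at hts
        exact ker_eq_of_le hts hf
      rcases classification hm t ht with h3 | h3 | ⟨g, -, h3⟩
      · rw [h3] at hts
        have h4 : s = ⊤ := top_le_iff.1 hts
        rw [hs] at h4
        exact absurd h4 (ker_ne_top hf)
      · exact key _ h3
      · exact key _ h3

/-! ### The standard colorings -/

/-- the standard coloring with `p` positive gadgets -/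
def std (m p : ℕ) : Vtx m → Bool
  | a j => decide ((j : ℕ) < p)
  | b j _ => !decide ((j : ℕ) < p)
  | c _ _ t => t
  | h t => t
  | z t => t

lemma half_std (m p : ℕ) : Half (std m p) where
  hh := by simp [std]
  hz := by simp [std]
  hab := by intro j i; simp [std]
  hc := by intro j i; simp [std]

/-- number of vertices with value `true` -/
def cnt {m : ℕ} (f : Vtx m → Bool) : ℕ := ∑ v, if f v then 1 else 0

lemma cnt_comp {m : ℕ} (f : Vtx m → Bool) (φ : Vtx m ≃ Vtx m) : cnt (fun v => f (φ v)) = cnt f :=
  φ.sum_comp (fun v => if f v then 1 else 0)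

lemma sum_lt {m p : ℕ} (hp : p ≤ m) : (∑ j : Fin m, if (j : ℕ) < p then 1 else 0) = p := by
  rw [Fin.sum_univ_eq_sum_range (fun j => if j < p then 1 else 0) m, ← Finset.card_filter]
  have : Finset.filter (fun j => j < p) (Finset.range m) = Finset.range p := by
    ext j
    simp only [Finset.mem_filter, Finset.mem_range]
    omega
  rw [this, Finset.card_range]

lemma sum_not_lt {m p : ℕ} (hp : p ≤ m) :
    (∑ j : Fin m, if (j : ℕ) < p then 0 else 1) + p = m := by
  have h1 : (∑ j : Fin m, if (j : ℕ) < p then 0 else 1) + (∑ j : Fin m, if (j : ℕ) < p then 1 else 0)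
      = m := by
    rw [← Finset.sum_add_distrib]
    have : ∀ j : Fin m, ((if (j : ℕ) < p then 0 else 1) + (if (j : ℕ) < p then 1 else 0)) = 1 := by
      intro j; split_ifs <;> rfl
    simp [this]
  rw [sum_lt hp] at h1
  exact h1

lemma cnt_std {m p : ℕ} (hp : p ≤ m) : cnt (std m p) + p = 4 * m + 2 := by
  unfold cnt
  rw [sum_eq]
  simp only [std, Fintype.sum_bool, decide_eq_true_eq, Bool.not_eq_true', decide_eq_false_iff_not,
    ite_not, if_true, Bool.false_eq_true, if_false, Finset.sum_const, Finset.card_univ,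
    Fintype.card_fin, smul_eq_mul, Finset.sum_add_distrib, Fintype.card_bool, ← Finset.mul_sum]
  have h1 := sum_lt hp
  have h2 := sum_not_lt hp
  omega

lemma cnt_not_std {m p : ℕ} (hp : p ≤ m) : cnt (fun v => !(std m p v)) = 3 * m + 2 + p := by
  unfold cnt
  rw [sum_eq]
  simp only [std, Fintype.sum_bool, decide_eq_true_eq, Bool.not_eq_true', decide_eq_false_iff_not,
    ite_not, if_true, Bool.false_eq_true, if_false, Finset.sum_const, Finset.card_univ,
    Fintype.card_fin, smul_eq_mul, Finset.sum_add_distrib, Bool.not_not, Bool.true_eq_false,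
    Fintype.card_bool, ← Finset.mul_sum]
  have h1 := sum_lt hp
  have h2 := sum_not_lt hp
  omega

/-! ### Orbits -/

lemma eq_or_not_of_ker_eq {V : Type} [Nonempty V] {f g : V → Bool}
    (hfg : ∀ x y, f x = f y ↔ g x = g y) : g = f ∨ g = fun x => !f x := by
  let x0 : V := Classical.arbitrary V
  by_cases h0 : f x0 = g x0
  · left
    funext x
    have h1 := hfg x x0
    revert h0 h1
    cases f x <;> cases f x0 <;> cases g x <;> cases g x0 <;> simp
  · right
    funext x
    have h1 := hfg x x0
    revert h0 h1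
    cases f x <;> cases f x0 <;> cases g x <;> cases g x0 <;> simp

/-- the automorphism that carries a half coloring to a standard one -/
def autFun {m : ℕ} (f : Vtx m → Bool) (π : Equiv.Perm (Fin m)) : Vtx m → Vtx m
  | a j => a (π j)
  | b j i => b (π j) i
  | c j i t => c (π j) i (f (c j i t))
  | h t => h (f (h t))
  | z t => z (f (z t))

lemma bool_inj {g : Bool → Bool} (hg : g true ≠ g false) {s t : Bool} (hst : g s = g t) : s = t := by
  cases s <;> cases t
  · rfl
  · exact absurd hst.symm hg
  · exact absurd hst hg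
  · rfl

lemma autFun_inj {m : ℕ} {f : Vtx m → Bool} (hf : Half f) (π : Equiv.Perm (Fin m)) :
    Function.Injective (autFun f π) := by
  rintro (j | ⟨j, i⟩ | ⟨j, i, t⟩ | t | t) (j' | ⟨j', i'⟩ | ⟨j', i', t'⟩ | t' | t') hxy <;>
    simp only [autFun, Vtx.a.injEq, Vtx.b.injEq, Vtx.c.injEq, Vtx.h.injEq, Vtx.z.injEq,
      reduceCtorEq, EmbeddingLike.apply_eq_iff_eq] at hxy
  · rw [hxy]
  · rw [hxy.1, hxy.2]
  · obtain ⟨rfl, rfl, h3⟩ := hxy
    rw [bool_inj (g := fun t => f (c j i t)) (hf.hc j i) h3]
  · rw [bool_inj (g := fun t => f (h t)) hf.hh hxy]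
  · rw [bool_inj (g := fun t => f (z t)) hf.hz hxy]

lemma autFun_E {m : ℕ} (f : Vtx m → Bool) (π : Equiv.Perm (Fin m)) (x y : Vtx m) :
    E m (autFun f π x) (autFun f π y) ↔ E m x y := by
  rcases x with j | ⟨j, i⟩ | ⟨j, i, t⟩ | t | t <;>
    rcases y with j' | ⟨j', i'⟩ | ⟨j', i', t'⟩ | t' | t' <;> simp [autFun, E]

/-- the automorphism -/
noncomputable def aut {m : ℕ} {f : Vtx m → Bool} (hf : Half f) (π : Equiv.Perm (Fin m)) :
    Gr m ≃g Gr m where
  toEquiv := Equiv.ofBijective (autFun f π) (Finite.injective_iff_bijective.1 (autFun_inj hf π))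
  map_rel_iff' := by
    intro x y
    show E m (autFun f π x) (autFun f π y) ∨ E m (autFun f π y) (autFun f π x) ↔ _
    rw [autFun_E, autFun_E]
    rfl

lemma std_aut {m p : ℕ} {f : Vtx m → Bool} (hf : Half f) (π : Equiv.Perm (Fin m))
    (hπ : ∀ j, f (a j) = decide ((π j : ℕ) < p)) (x : Vtx m) : std m p (aut hf π x) = f x := by
  show std m p (autFun f π x) = f x
  rcases x with j | ⟨j, i⟩ | ⟨j, i, t⟩ | t | t
  · exact (hπ j).symm
  · show (!decide ((π j : ℕ) < p)) = _
    rw [← hπ j]
    have h1 := hf.hab j i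
    revert h1
    cases f (a j) <;> cases f (b j i) <;> simp
  · rfl
  · rfl
  · rfl

lemma exists_perm {m : ℕ} (f : Fin m → Bool) (p : ℕ)
    (hp : (Finset.univ.filter (fun j => f j = true)).card = p) :
    ∃ π : Equiv.Perm (Fin m), ∀ j, f j = decide ((π j : ℕ) < p) := by
  have hpm : p ≤ m := by
    rw [← hp]
    exact (Finset.card_le_univ _).trans (by simp)
  have h1 : Fintype.card {j : Fin m // f j = true} = Fintype.card {j : Fin m // (j : ℕ) < p} := by
    rw [Fintype.card_subtype, hp, Fintype.card_subtype, Finset.card_filter, sum_lt hpm]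
  let e := Fintype.equivOfCardEq h1
  refine ⟨e.extendSubtype, fun j => ?_⟩
  by_cases hj : f j = true
  · have h2 := e.extendSubtype_mem j hj
    simp only [hj, h2, decide_true]
  · have h2 := e.extendSubtype_not_mem j hj
    simp only [Bool.not_eq_true] at hj
    simp only [hj, h2, decide_false]

/-- **The count.** -/
theorem numIrreducible_Gr (n : ℕ) : numIrreducible (Gr (2 * n + 1)) = n + 2 := by
  have hm : 1 ≤ 2 * n + 1 := by omega
  let S : Option (Fin (n + 1)) → {s : Setoid (Vtx (2 * n + 1)) // IsIrreducible (Gr _) s}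
    | none => ⟨Setoid.ker side, (irreducible_iff hm _).2 (Or.inl rfl)⟩
    | some p => ⟨Setoid.ker (std _ p), (irreducible_iff hm _).2 (Or.inr ⟨_, half_std _ _, rfl⟩)⟩
  have hbij : Function.Bijective (fun o => (Quotient.mk (orbitSetoid (Gr (2 * n + 1))) (S o))) := by
    constructor
    · -- injectivity
      have h0 : ∀ p : Fin (n + 1), ¬ (orbitSetoid (Gr (2 * n + 1))) (S (some p)) (S none) := by
        rintro p ⟨φ, hφ⟩
        have h1 : (Gr (2 * n + 1)).Adj (h true) (z true) := by simp [Gr, E]
        have h2 := (hφ (h true) (z true)).1 rfl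
        have h3 := (φ.map_rel_iff (a := h true) (b := z true)).2 h1
        have h4 : side (φ (h true)) = side (φ (z true)) := h2
        revert h3 h4
        generalize φ (h true) = x
        generalize φ (z true) = y
        rcases x with j | ⟨j, i⟩ | ⟨j, i, t⟩ | t | t <;>
          rcases y with j' | ⟨j', i'⟩ | ⟨j', i', t'⟩ | t' | t' <;> simp [Gr, E, side]
      have h1 : ∀ p q : Fin (n + 1), (orbitSetoid (Gr (2 * n + 1))) (S (some p)) (S (some q)) →
          p = q := by
        rintro p q ⟨φ, hφ⟩
        have h2 : ∀ x y, std (2 * n + 1) p x = std (2 * n + 1) p y ↔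
            std (2 * n + 1) q (φ x) = std (2 * n + 1) q (φ y) := hφ
        have hp := p.2
        have hq := q.2
        have c1 := cnt_std (m := 2 * n + 1) (p := p) (by omega)
        have c2 := cnt_std (m := 2 * n + 1) (p := q) (by omega)
        have c3 := cnt_not_std (m := 2 * n + 1) (p := p) (by omega)
        have c4 := cnt_comp (std (2 * n + 1) q) φ.toEquiv
        apply Fin.ext
        rcases eq_or_not_of_ker_eq (g := fun x => std (2 * n + 1) q (φ x)) h2 with h3 | h3
        · have h4 : cnt (fun x => std (2 * n + 1) q (φ x)) = cnt (std (2 * n + 1) p) := by rw [h3]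
          have h5 : cnt (fun x => std (2 * n + 1) q (φ x)) = cnt (std (2 * n + 1) q) := c4
          omega
        · have h4 : cnt (fun x => std (2 * n + 1) q (φ x)) =
              cnt (fun v => !(std (2 * n + 1) p v)) := by rw [h3]
          have h5 : cnt (fun x => std (2 * n + 1) q (φ x)) = cnt (std (2 * n + 1) q) := c4
          omega
      rintro (_ | p) (_ | q) hpq
      · rfl
      · exact absurd ((orbitSetoid _).symm (Quotient.exact hpq)) (h0 q)
      · exact absurd (Quotient.exact hpq) (h0 p)
      · rw [h1 p q (Quotient.exact hpq)]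
    · -- surjectivity
      intro x
      induction x using Quotient.inductionOn with
      | h x =>
        obtain ⟨s, hs⟩ := x
        rcases (irreducible_iff hm s).1 hs with rfl | ⟨f, hf, rfl⟩
        · exact ⟨none, rfl⟩
        · -- choose the sign
          have key : ∀ g : Vtx (2 * n + 1) → Bool, Half g → Setoid.ker g = Setoid.ker f →
              (Finset.univ.filter (fun j => g (a j) = true)).card < n + 1 →
              ∃ o, (fun o => (Quotient.mk (orbitSetoid (Gr (2 * n + 1))) (S o))) o =
                Quotient.mk (orbitSetoid (Gr (2 * n + 1))) ⟨Setoid.ker f, hs⟩ := by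
            intro g hg hgf hcard
            obtain ⟨π, hπ⟩ := exists_perm (fun j => g (a j)) _ rfl
            refine ⟨some ⟨_, hcard⟩, ?_⟩
            apply Quotient.sound
            refine (orbitSetoid _).symm ⟨aut hg π, fun u v => ?_⟩
            show Setoid.ker f u v ↔ std _ _ (aut hg π u) = std _ _ (aut hg π v)
            rw [std_aut hg π hπ, std_aut hg π hπ, ← hgf]
            rfl
          by_cases hc : (Finset.univ.filter (fun j => f (a j) = true)).card < n + 1
          · exact key f hf rfl hc
          · refine key (fun x => !f x) ?_ ?_ ?_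
            · constructor
              · simpa using hf.hh
              · simpa using hf.hz
              · intro j i; simpa using hf.hab j i
              · intro j i; simpa using hf.hc j i
            · ext x y
              rw [Setoid.ker_def, Setoid.ker_def]
              simp
            · have h1 := Finset.card_filter_add_card_filter_not (s := (Finset.univ : Finset (Fin (2 * n + 1))))
                (fun j => f (a j) = true)
              simp only [Finset.card_univ, Fintype.card_fin] at h1
              have h2 : (Finset.univ.filter (fun j : Fin (2 * n + 1) => (!f (a j)) = true)) =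
                  Finset.univ.filter (fun j => ¬ f (a j) = true) := by
                ext j; simp
              rw [h2]
              omega
  unfold numIrreducible
  rw [← Nat.card_eq_of_bijective _ hbij]
  simp

lemma connected_Gr (m : ℕ) : (Gr m).Connected := by
  have hz : ∀ t t', (Gr m).Reachable (h t) (z t') := fun t t' =>
    SimpleGraph.Adj.reachable (by simp [Gr, E])
  have hc : ∀ j i t t', (Gr m).Reachable (h t') (c j i t) := fun j i t t' =>
    SimpleGraph.Adj.reachable (by simp [Gr, E])
  have ha : ∀ j i t, (Gr m).Reachable (c j i t) (a j) := fun j i t =>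
    SimpleGraph.Adj.reachable (by simp [Gr, E])
  have hb : ∀ j i t, (Gr m).Reachable (c j i t) (b j i) := fun j i t =>
    SimpleGraph.Adj.reachable (by simp [Gr, E])
  have key : ∀ x, (Gr m).Reachable (h true) x := by
    rintro (j | ⟨j, i⟩ | ⟨j, i, t⟩ | t | t)
    · exact (hc j true true true).trans (ha _ _ _)
    · exact (hc j i true true).trans (hb _ _ _)
    · exact hc _ _ _ _
    · exact (hz true true).trans (hz t true).symm
    · exact hz _ _
  rw [SimpleGraph.connected_iff]
  exact ⟨fun x y => (key x).symm.trans (key y), inferInstance⟩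

/-! ### One coloring -/

lemma setoid_unit (s t : Setoid Unit) : s = t := by
  ext x y
  cases x
  cases y
  exact ⟨fun _ => t.refl _, fun _ => s.refl _⟩

lemma numIrreducible_unit : numIrreducible (⊥ : SimpleGraph Unit) = 1 := by
  have hfat : IsFATPartition (⊥ : SimpleGraph Unit) ⊤ := by
    refine ⟨1, fun _ => 0, ⟨0, le_rfl, zero_le_one, ?_⟩, setoid_unit _ _⟩
    intro v i
    have h0 : ∀ S : Set Unit, nbrs (⊥ : SimpleGraph Unit) v S = 0 := by
      intro S
      unfold nbrs
      simp
    rw [h0, h0]
    simp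
  unfold numIrreducible
  rw [Nat.card_eq_one_iff_unique]
  refine ⟨⟨?_⟩, ⟨Quotient.mk _ ⟨⊤, hfat, fun t _ _ => setoid_unit _ _⟩⟩⟩
  intro x y
  induction x using Quotient.inductionOn with
  | h x =>
    induction y using Quotient.inductionOn with
    | h y =>
      have : x = y := Subtype.ext (setoid_unit _ _)
      rw [this]

/-- **Q1.** For every positive integer `b` there is a finite simple graph, which can even be taken
connected, with exactly `b` irreducible FAT colorings. -/
theorem result : ∀ b : ℕ, 1 ≤ b → ∃ (V : Type) (_ : Fintype V) (G : SimpleGraph V),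
    G.Connected ∧ numIrreducible G = b := by
  intro b hb
  rcases Nat.lt_or_ge b 2 with h1 | h1
  · obtain rfl : b = 1 := by omega
    refine ⟨Unit, inferInstance, ⊥, ?_, numIrreducible_unit⟩
    rw [SimpleGraph.connected_iff]
    exact ⟨fun x y => by rw [Subsingleton.elim x y], inferInstance⟩
  · obtain ⟨n, rfl⟩ : ∃ n, b = n + 2 := ⟨b - 2, by omega⟩
    exact ⟨Vtx (2 * n + 1), inferInstance, Gr (2 * n + 1), connected_Gr _, numIrreducible_Gr n⟩

end Pool.Agent.Results.MP_48b99b_co.EveryNumber
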